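import Mathlib
import Pool.Agent.Helper37.MBC.Defs
import Pool.Agent.Helper37.MBC.Main
import Pool.Agent.Helper37.MBC.Key
import Pool.Agent.Helper37.MBC.Strong

/-!
# A strong M-basis of `c_0` no finite partition of which consists of bases with parentheses

`IsMBasis`, `closedSpan`, `IsBasisWithParentheses` and `sub` are defined in
`Pool/Agent/Helper37/MBC/Defs.lean`; they spell out the definitions of the problem file.
-/

set_option autoImplicit false
open Filter Topology ZeroAtInfty

namespace Pool.Agent.Results.MP_e07177_an.FinitePartitions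

open Pool.Agent.Helper37.MBC

/-- The real or complex space `c_0` has a strong M-basis `x` (with functionals `f`) such that for
every colouring of the indices with finitely many colours, one colour class is infinite, carries no
linear summation method by finitely supported multipliers on its closed linear span, and is in no
order whatever a basis with parentheses of its closed linear span. In particular there is no
partition into two infinite sets whose two subsequences are both bases with parentheses of their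
closed linear spans. -/
theorem result (𝕜 : Type) [RCLike 𝕜] :
    ∃ (x : ℕ → C₀(ℕ, 𝕜)) (f : ℕ → (C₀(ℕ, 𝕜) →L[𝕜] 𝕜)),
      IsMBasis x f ∧
      (∀ v : C₀(ℕ, 𝕜), v ∈ closedSpan 𝕜 x {i : ℕ | f i v ≠ 0}) ∧
      (∀ (r : ℕ) (χ : ℕ → Fin r), ∃ q : Fin r,
        {n : ℕ | χ n = q}.Infinite ∧
        (¬ ∃ (F : ℕ → Finset ℕ) (t : ℕ → ℕ → 𝕜), ∀ v ∈ closedSpan 𝕜 x {n : ℕ | χ n = q},
          Tendsto (fun m => ∑ i ∈ F m, (t m i * f i v) • x i) atTop (𝓝 v)) ∧
        ∀ (a : ℕ → ℕ) (ha : ∀ n : ℕ, a n ∈ {n : ℕ | χ n = q}), Function.Injective a →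
          Set.range a = {n : ℕ | χ n = q} →
          ¬ IsBasisWithParentheses 𝕜 (sub 𝕜 x {n : ℕ | χ n = q} a ha)) ∧
      ∀ (σ Δ : Set ℕ) (a b : ℕ → ℕ) (ha : ∀ n : ℕ, a n ∈ σ) (hb : ∀ n : ℕ, b n ∈ Δ),
        Disjoint σ Δ → σ ∪ Δ = Set.univ → StrictMono a → StrictMono b →
        Set.range a = σ → Set.range b = Δ →
        ¬ (IsBasisWithParentheses 𝕜 (sub 𝕜 x σ a ha) ∧
          IsBasisWithParentheses 𝕜 (sub 𝕜 x Δ b hb)) := by
  have key : ∀ (σ : Set ℕ), {k : ℕ | {j : ℕ | Nat.pair k j ∈ σ}.Infinite}.Infinite →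
      ∀ (a : ℕ → ℕ) (ha : ∀ n : ℕ, a n ∈ σ), Function.Injective a →
        ¬ IsBasisWithParentheses 𝕜 (sub 𝕜 (X 𝕜) σ a ha) := by
    intro σ hσ a ha hinj hb
    obtain ⟨F, _, hF⟩ := multiplier_of_basis (X 𝕜) (Fn 𝕜) Fn_X σ a ha hinj hb
    refine no_multiplier (𝕜 := 𝕜) σ hσ F (fun _ _ => 1) ?_
    intro v hv
    refine (hF v hv).congr ?_
    intro m
    simp only [one_mul]
  refine ⟨X 𝕜, Fn 𝕜, ⟨dense_span, Fn_X, Fn_total⟩, strong, ?_, ?_⟩
  · intro r χ
    obtain ⟨q, hq⟩ := exists_colour r χ
    refine ⟨q, ?_, ?_, ?_⟩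
    · obtain ⟨k, hk⟩ := hq.nonempty
      have hk' : {j : ℕ | χ (Nat.pair k j) = q}.Infinite := hk
      have hinj : Set.InjOn (fun j : ℕ => Nat.pair k j) {j : ℕ | χ (Nat.pair k j) = q} := by
        intro a _ b _ hab
        exact (Nat.pair_eq_pair.mp hab).2
      refine (hk'.image hinj).mono ?_
      rintro _ ⟨j, hj, rfl⟩
      exact hj
    · rintro ⟨F, t, hT⟩
      exact no_multiplier (𝕜 := 𝕜) {n : ℕ | χ n = q} hq F t hT
    · intro a ha hinj _
      exact key _ hq a ha hinj
  · intro σ Δ a b ha hb hdis hun hmono hmono' _ _ hboth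
    classical
    obtain ⟨q, hq⟩ := exists_colour 2 (fun n => if n ∈ σ then 0 else 1)
    have hq2 : q = 0 ∨ q = 1 := by
      fin_cases q
      · exact Or.inl rfl
      · exact Or.inr rfl
    rcases hq2 with rfl | rfl
    · refine key σ ?_ a ha hmono.injective hboth.1
      refine hq.mono ?_
      intro k hk
      refine Set.Infinite.mono ?_ hk
      intro j hj
      have hj' : (if Nat.pair k j ∈ σ then (0 : Fin 2) else 1) = 0 := hj
      show Nat.pair k j ∈ σ
      by_contra hcon
      rw [if_neg hcon] at hj'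
      exact absurd hj' (by decide)
    · refine key Δ ?_ b hb hmono'.injective hboth.2
      refine hq.mono ?_
      intro k hk
      refine Set.Infinite.mono ?_ hk
      intro j hj
      have hj' : (if Nat.pair k j ∈ σ then (0 : Fin 2) else 1) = 1 := hj
      have hnot : Nat.pair k j ∉ σ := by
        intro hcon
        rw [if_pos hcon] at hj'
        exact absurd hj' (by decide)
      have hmem : Nat.pair k j ∈ σ ∪ Δ := by rw [hun]; trivial
      exact hmem.resolve_left hnot

end Pool.Agent.Results.MP_e07177_an.FinitePartitions
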